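import Pool.Agent.TH79.CA.Forward
import Pool.Agent.TH79.CA.Backward
import Pool.Agent.TH79.CA.ClassTwo

/-!
Classification of the finite `p`-groups `G` with `|Aut_c(G)| = |γ₂(G)| ^ d(G)`.
-/

set_option autoImplicit false

namespace Pool.Agent.Results.MP_932391_al.Classification

open Pool.Agent.TH79.CA
open scoped commutatorElement

universe u

/-- Let `G` be a finite `p`-group, `Aut_c(G)` its set of class-preserving automorphisms and
`γ₂(G) = [G, G]`. Then `|Aut_c(G)| = |γ₂(G)| ^ d(G)` if and only if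
(A) `G` has class at most two and `x^G = x γ₂(G)` for every `x` outside `Φ(G)`, or
(B) `d(G) = 2`, `γ₂(G)` is cyclic and, if `p = 2`, `[γ₂(G), G] ≤ γ₂(G)⁴`, or
(C) `p = 2`, `d(G) = 2`, `γ₂(G)` has exponent dividing two and `G` has class at most three.
Moreover, when `G` has class at most two, the coset condition of (A) holds if and only if
`Z(G/N) ≤ Φ(G/N)` for every maximal subgroup `N` of `γ₂(G)`. -/
theorem result : ∀ (p : ℕ), p.Prime → ∀ (G : Type u) [Group G] [Finite G], IsPGroup p G →
    (Nat.card {α : MulAut G // ∀ x, IsConj x (α x)} =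
        Nat.card (commutator G) ^ Group.rank G ↔
      (commutator G ≤ Subgroup.center G ∧
        ∀ x, x ∉ frattini G → ∀ c ∈ commutator G, IsConj x (x * c)) ∨
      (Group.rank G = 2 ∧ IsCyclic (commutator G) ∧
        (p = 2 → ∀ t ∈ ⁅commutator G, (⊤ : Subgroup G)⁆, ∃ u ∈ commutator G, t = u ^ 4)) ∨
      (p = 2 ∧ Group.rank G = 2 ∧ (∀ u ∈ commutator G, u ^ 2 = 1) ∧
        ⁅commutator G, (⊤ : Subgroup G)⁆ ≤ Subgroup.center G)) ∧
    (commutator G ≤ Subgroup.center G →
      ((∀ x, x ∉ frattini G → ∀ c ∈ commutator G, IsConj x (x * c)) ↔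
        ∀ (N : Subgroup G) [N.Normal], N < commutator G →
          (∀ K : Subgroup G, N < K → K ≤ commutator G → K = commutator G) →
            Subgroup.center (G ⧸ N) ≤ frattini (G ⧸ N))) := by
  intro p hp G _ _ hG
  haveI : Fact p.Prime := ⟨hp⟩
  have hA : Nat.card {α : MulAut G // ∀ x, IsConj x (α x)} = Nat.card (autC G) := rfl
  have hcyc : IsCyclic (commutator G) ↔ ∃ c ∈ commutator G, ∀ u ∈ commutator G, ∃ n : ℤ,
      u = c ^ n := by
    constructor
    · rintro ⟨⟨c, hc⟩, h⟩
      refine ⟨c, hc, fun u hu => ?_⟩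
      obtain ⟨n, hn⟩ := h ⟨u, hu⟩
      exact ⟨n, (congrArg Subtype.val hn).symm⟩
    · rintro ⟨c, hc, h⟩
      refine ⟨⟨c, hc⟩, ?_⟩
      rintro ⟨u, hu⟩
      obtain ⟨n, hn⟩ := h u hu
      exact ⟨n, Subtype.ext hn.symm⟩
  refine ⟨?_, fun hcen => class_two_iff hG hcen⟩
  rw [hA]
  constructor
  · intro h
    have hE := EE_of_card h
    obtain ⟨x, hx⟩ := exists_tuple (G := G)
    have hgood : Good p (Group.rank G) G := ⟨inferInstance, hG, hE, x, hx⟩
    by_cases h3 : g3 G = ⊥
    · left
      refine ⟨central_of_bot h3, ?_⟩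
      intro y hy c hc
      obtain ⟨i, hi⟩ := extend_tuple hG hx hy
      obtain ⟨α, h1, h2⟩ := hE _ hi (fun j => if j = i then c else 1) (by
        intro j
        split_ifs
        · exact hc
        · exact one_mem _)
      have h4 := h2 i
      rw [Function.update_self, if_pos rfl] at h4
      rw [← h4]
      exact h1 y
    · right
      have hr := d_eq_two hgood h3
      rw [hr] at hgood
      rcases forward_two hgood with ⟨h1, h2⟩ | ⟨h1, h2, h4⟩
      · left
        exact ⟨hr, hcyc.2 h1, h2⟩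
      · right
        exact ⟨h1, hr, h2, h4⟩
  · rintro (⟨h1, h2⟩ | ⟨hr, h1, h2⟩ | ⟨rfl, hr, h1, h2⟩)
    · exact backward_central hG h1 h2
    · obtain ⟨c, hc, hcu⟩ := hcyc.1 h1
      obtain ⟨x, hx⟩ : ∃ x : Fin 2 → G, Subgroup.closure (Set.range x) = ⊤ := by
        have := exists_tuple (G := G)
        rwa [hr] at this
      rw [hr]
      exact backward_cyclic hG hx hc hcu h2
    · rw [hr]
      exact backward_exc hG hr h1 h2

end Pool.Agent.Results.MP_932391_al.Classification
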